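import Pool.Agent.R302.RoeC
import Pool.Agent.R302.RoeD

/-!
# MP_6f54aa_an, Q1: equality of the ghostly and the geometric ideal does not give
# partial Property A

The space is a coarse disjoint union of blocks indexed by `(n, m)`, the block of `(n, m)` being a
finite quotient group of the free group of rank two on which the ball of radius `m` is embedded.
The closed invariant set is the closure of the limits, as `n` tends to a fixed free ultrafilter, of
the points of the blocks `(n, m)`, `m` fixed.
-/

namespace Pool.Agent.Results.MP_6f54aa_an.GhostlyEqGeometric

open Pool.Agent.R302.Roe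

theorem _root_.Pool.Agent.Results.MP_6f54aa_an.GhostlyEqGeometric.result :
    ∃ (X : Type) (_ : MetricSpace X), BoundedGeometry X ∧ StronglyDiscrete X ∧
      ∃ U : Set (Ultrafilter X), IsOpen U ∧ U.Nonempty ∧ Invariant U ∧
        ghostly U = geom U ∧ ¬ TopAmenable Uᶜ := by
  refine ⟨PX, inferInstance, bddGeom, strDisc, FFᶜ, isOpen_compl, nonempty_compl,
    invariant_compl, Set.Subset.antisymm ghostly_subset (geom_subset _), ?_⟩
  rw [compl_compl]
  exact not_amenable

end Pool.Agent.Results.MP_6f54aa_an.GhostlyEqGeometric
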